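import Pool.Agent.MWGR.StmtsF
import Pool.Agent.MWGR.Mono

set_option autoImplicit false

namespace Pool.Agent.MWGR.H3

open Pool.Agent.Helper14_MV Pool.Agent.Helper2_MV Pool.Agent.MVO Pool.Agent.MWL Pool.Agent.MWS
  Pool.Agent.MWH

/-- **MNB** -/
theorem mnb : MnbStmt := fun _ _ _ h => ⟨fun hb => bg_mono hb h, fun hr => reg_mono hr h⟩

end Pool.Agent.MWGR.H3
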